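import Pool.Agent.Results.MP_c4e2dd_an.GDFails

/-!
Elements of small norm.
-/

set_option autoImplicit false

open MeasureTheory Complex Filter Topology Metric
open scoped ENNReal Real ComplexConjugate

namespace Pool.Agent.Y503.GD

open Pool.Agent.Results.MP_c4e2dd_an.GDFails

/-- the weights -/
noncomputable def eK (K : ℝ) (j : ℕ) : ℝ := K * eE j

lemma eK0 {K : ℝ} (hK : 0 ≤ K) : ∀ j, 0 ≤ eK K j := fun j => mul_nonneg hK (eE_pos j).le

lemma eK_sum (K : ℝ) : Summable (eK K) := eE_sum.mul_left K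

lemma S_eK (K : ℝ) (z : ℂ) : S (eK K) eE z = K * S eE eE z := by
  unfold S eK
  rw [← tsum_mul_left]
  refine tsum_congr fun j => ?_
  push_cast
  ring

/-- The auxiliary function. -/
noncomputable def HK (K : ℝ) (z : ℂ) : ℂ := Complex.exp (-S (eK K) eE z)

/-- The auxiliary function as an element of `L^∞`. -/
noncomputable def hK {K : ℝ} (h : 0 ≤ K) : Lp ℂ ∞ mT := (exp_memLp (eK0 h) eE_pos (eK_sum K)).toLp _

lemma hK_ae {K : ℝ} (h : 0 ≤ K) : hK h =ᵐ[mT] HK K := MemLp.coeFn_toLp _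

lemma hK_boundary {K : ℝ} (h : 0 ≤ K) : HasBoundary (HK K) (hK h) := by
  filter_upwards [ae_norm, ae_ne_one, hK_ae h] with ζ h1 h2 h3
  rw [h3]
  exact exp_radial (eK0 h) eE_pos (eK_sum K) h1 h2

theorem small (K : ℝ) (hK0 : 0 < K) :
    ∃ f ∈ HinfPlus θL, ‖f‖ ≤ Real.exp (-(K / 2)) ∧
      ¬ ∃ u ∈ HinfPlus θL, u =ᵐ[mT] fun ζ => 1 / (1 - f ζ) := by
  have hThm : AEStronglyMeasurable Th mT := (exp_memLp cC0 dD_pos cC_sum).1
  have hHm : AEStronglyMeasurable (HK K) mT := (exp_memLp (eK0 hK0.le) eE_pos (eK_sum K)).1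
  let U : Set ℂ := {ζ | ‖Th ζ‖ < Real.exp (-BB)}
  have hU : NullMeasurableSet U mT :=
    nullMeasurableSet_lt hThm.norm.aemeasurable aemeasurable_const
  have hHle : ∀ᵐ ζ ∂mT, ‖HK K ζ‖ ≤ 1 := by
    filter_upwards [ae_norm, ae_ne_one] with ζ h1 h2
    exact exp_neg_bdd (eK0 hK0.le) eE_pos (eK_sum K) h1.le h2
  have hfb : ∀ᵐ ζ ∂mT, ‖U.indicator (HK K) ζ‖ ≤ Real.exp (-(K / 2)) := by
    filter_upwards [ae_norm, ae_ne_one] with ζ h1 h2
    by_cases hζ : ζ ∈ U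
    · rw [Set.indicator_of_mem hζ]
      have h3 : ∃ j : ℕ, |(v ζ).im - j| ≤ eE j := by
        by_contra hcon
        push Not at hcon
        have h4 := Q_re_small h1 h2 hcon
        have h5 : ‖Th ζ‖ < Real.exp (-BB) := hζ
        rw [Th, Complex.norm_exp, Real.exp_lt_exp, neg_re] at h5
        linarith
      obtain ⟨j, hj⟩ := h3
      rw [HK, Complex.norm_exp, Real.exp_le_exp, neg_re, S_eK, re_ofReal_mul]
      have := P_re_large h1 h2 hj
      nlinarith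
    · rw [Set.indicator_of_notMem hζ, norm_zero]
      exact (Real.exp_pos _).le
  have hfm : MemLp (U.indicator (HK K)) ∞ mT := memLp_top_of_bound (hHm.indicator₀ hU) _ hfb
  have hgb : ∀ᵐ ζ ∂mT, ‖Uᶜ.indicator (fun ζ => -(HK K ζ / Th ζ)) ζ‖ ≤ Real.exp BB := by
    filter_upwards [hHle] with ζ h1
    by_cases hζ : ζ ∈ Uᶜ
    · rw [Set.indicator_of_mem hζ, norm_neg, norm_div]
      have h2 : Real.exp (-BB) ≤ ‖Th ζ‖ := not_lt.1 hζ
      rw [div_le_iff₀ (lt_of_lt_of_le (Real.exp_pos _) h2)]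
      calc ‖HK K ζ‖ ≤ 1 := h1
        _ = Real.exp BB * Real.exp (-BB) := by rw [← Real.exp_add]; simp
        _ ≤ Real.exp BB * ‖Th ζ‖ := mul_le_mul_of_nonneg_left h2 (Real.exp_pos _).le
    · rw [Set.indicator_of_notMem hζ, norm_zero]
      exact (Real.exp_pos _).le
  have hgm : MemLp (Uᶜ.indicator (fun ζ => -(HK K ζ / Th ζ))) ∞ mT := by
    apply memLp_top_of_bound _ _ hgb
    apply AEStronglyMeasurable.indicator₀ _ hU.compl
    exact (hHm.aemeasurable.div hThm.aemeasurable).neg.aestronglyMeasurable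
  let f : Lp ℂ ∞ mT := hfm.toLp _
  let g : Lp ℂ ∞ mT := hgm.toLp _
  have hf : f =ᵐ[mT] U.indicator (HK K) := MemLp.coeFn_toLp _
  have hg : g =ᵐ[mT] Uᶜ.indicator (fun ζ => -(HK K ζ / Th ζ)) := MemLp.coeFn_toLp _
  have hfg : f =ᵐ[mT] fun ζ => hK hK0.le ζ + θL ζ * g ζ := by
    filter_upwards [hf, hg, θL_ae, hK_ae hK0.le] with ζ h1 h2 h3 h4
    rw [h1, h2, h3, h4]
    by_cases hζ : ζ ∈ U
    · rw [Set.indicator_of_mem hζ, Set.indicator_of_notMem (by simpa using hζ)]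
      ring
    · rw [Set.indicator_of_notMem hζ, Set.indicator_of_mem (by simpa using hζ)]
      have : Th ζ ≠ 0 := Complex.exp_ne_zero _
      field_simp
      ring
  have hfX : f ∈ HinfPlus θL :=
    ⟨hK hK0.le, ⟨HK K, exp_isBdd (eK0 hK0.le) eE_pos (eK_sum K), hK_boundary hK0.le⟩, g, hfg⟩
  have hfle : ∀ᵐ ζ ∂mT, ‖f ζ‖ ≤ Real.exp (-(K / 2)) := by
    filter_upwards [hf, hfb] with ζ h1 h2
    rwa [h1]
  refine ⟨f, hfX, norm_lt_of_bound (Real.exp_pos _).le hfle, ?_⟩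
  rintro ⟨u, ⟨Fs, ⟨F, ⟨hFd, CF, hCF⟩, hFb⟩, G, huFG⟩, hu⟩
  obtain ⟨MG, hMG0, hMG⟩ := Linf_bound G
  obtain ⟨Mg, hMg0, hMg⟩ := Linf_bound g
  obtain ⟨MF, hMF0, hMF⟩ := Linf_bound Fs
  have he1 : Real.exp (-(K / 2) : ℝ) < 1 := by rw [Real.exp_lt_one_iff]; linarith
  -- the bounded analytic function
  have hHbdd : IsBddAnalytic (HK K) := exp_isBdd (eK0 hK0.le) eE_pos (eK_sum K)
  have hKb : IsBddAnalytic (fun z => 1 - F z * (1 - HK K z)) := by
    constructor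
    · exact (differentiableOn_const _).sub (hFd.mul ((differentiableOn_const _).sub hHbdd.1))
    · obtain ⟨CH, hCH⟩ := hHbdd.2
      refine ⟨1 + CF * (1 + CH), fun z hz => ?_⟩
      have h1 : ‖F z * (1 - HK K z)‖ ≤ CF * (1 + CH) := by
        rw [norm_mul]
        apply mul_le_mul (hCF z hz) _ (norm_nonneg _) ((norm_nonneg _).trans (hCF z hz))
        calc ‖1 - HK K z‖ ≤ ‖(1:ℂ)‖ + ‖HK K z‖ := norm_sub_le _ _
          _ ≤ 1 + CH := by rw [norm_one]; linarith [hCH z hz]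
      calc ‖1 - F z * (1 - HK K z)‖ ≤ ‖(1:ℂ)‖ + ‖F z * (1 - HK K z)‖ := norm_sub_le _ _
        _ ≤ _ := by rw [norm_one]; linarith
  have hKl : ∀ᵐ ζ ∂mT, Tendsto (fun r : ℝ => 1 - F (r * ζ) * (1 - HK K (r * ζ))) (𝓝[<] 1)
      (𝓝 (1 - Fs ζ * (1 - hK hK0.le ζ))) := by
    filter_upwards [hFb, hK_boundary hK0.le] with ζ h1 h2
    exact tendsto_const_nhds.sub (h1.mul (tendsto_const_nhds.sub h2))
  have hKM : ∀ᵐ ζ ∂mT, ‖1 - Fs ζ * (1 - hK hK0.le ζ)‖ ≤ (MG * 2 + MF * Mg) * ‖Th ζ‖ := by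
    filter_upwards [hMG, hMg, hMF, hfle, hfg, huFG, hu, θL_ae] with ζ h1 h2 h3 h4 h5 h6 h7 h8
    have h9 : 1 - f ζ ≠ 0 := by
      intro h0
      have : f ζ = 1 := (sub_eq_zero.1 h0).symm
      rw [this, norm_one] at h4
      linarith
    have h10 : (Fs ζ + θL ζ * G ζ) * (1 - f ζ) = 1 := by
      rw [← h6, h7]
      field_simp
    have h11 : 1 - Fs ζ * (1 - hK hK0.le ζ) = θL ζ * (G ζ * (1 - f ζ) - Fs ζ * g ζ) := by
      have h12 : hK hK0.le ζ = f ζ - θL ζ * g ζ := by rw [h5]; ring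
      rw [h12]
      linear_combination -h10
    rw [h11, norm_mul, h8, mul_comm]
    apply mul_le_mul_of_nonneg_right _ (norm_nonneg _)
    calc ‖G ζ * (1 - f ζ) - Fs ζ * g ζ‖ ≤ ‖G ζ * (1 - f ζ)‖ + ‖Fs ζ * g ζ‖ := norm_sub_le _ _
      _ = ‖G ζ‖ * ‖1 - f ζ‖ + ‖Fs ζ‖ * ‖g ζ‖ := by rw [norm_mul, norm_mul]
      _ ≤ MG * 2 + MF * Mg := by
        have h13 : ‖1 - f ζ‖ ≤ 2 := by
          calc ‖1 - f ζ‖ ≤ ‖(1:ℂ)‖ + ‖f ζ‖ := norm_sub_le _ _
            _ ≤ 2 := by rw [norm_one]; linarith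
        gcongr
  have hkey : ∀ k : ℕ, ‖1 - F (zk k) * (1 - HK K (zk k))‖ ≤
      (MG * 2 + MF * Mg) * Real.exp (-((3 / 2 : ℝ) ^ k / 2)) := by
    intro k
    refine (compare hKb hKM hKl (k + 1) (zk_mem k)).trans ?_
    apply mul_le_mul_of_nonneg_left _ (by positivity)
    apply Real.exp_le_exp.2
    linarith [Q_large k]
  have hH1 : Tendsto (fun k => HK K (zk k)) atTop (𝓝 1) := by
    have h0 : Tendsto (fun k => S (eK K) eE (zk k)) atTop (𝓝 0) := by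
      have := P_tendsto.const_mul (K : ℂ)
      rw [mul_zero] at this
      exact this.congr fun k => (S_eK K (zk k)).symm
    have h1 := (Complex.continuous_exp.tendsto _).comp h0.neg
    simpa [HK, Function.comp_def] using h1
  have hlim1 : Tendsto (fun k => ‖F (zk k) * (1 - HK K (zk k))‖) atTop (𝓝 0) := by
    have h1 : Tendsto (fun k => CF * ‖1 - HK K (zk k)‖) atTop (𝓝 0) := by
      have h2 : Tendsto (fun k => ‖1 - HK K (zk k)‖) atTop (𝓝 0) := by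
        have := (tendsto_const_nhds (x := (1:ℂ))).sub hH1
        simpa using this.norm
      simpa using h2.const_mul CF
    apply squeeze_zero (fun k => norm_nonneg _) _ h1
    intro k
    rw [norm_mul]
    exact mul_le_mul_of_nonneg_right (hCF _ (zk_mem k)) (norm_nonneg _)
  have hlim2 : Tendsto (fun k : ℕ => (MG * 2 + MF * Mg) * Real.exp (-((3 / 2 : ℝ) ^ k / 2))) atTop
      (𝓝 0) := by
    have h1 : Tendsto (fun k : ℕ => (3 / 2 : ℝ) ^ k / 2) atTop atTop :=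
      (tendsto_pow_atTop_atTop_of_one_lt (by norm_num)).atTop_div_const (by norm_num)
    have h2 := (Real.tendsto_exp_neg_atTop_nhds_zero.comp h1).const_mul (MG * 2 + MF * Mg)
    simpa [Function.comp_def] using h2
  have hfin : ∀ k : ℕ, (1:ℝ) ≤ ‖F (zk k) * (1 - HK K (zk k))‖ +
      (MG * 2 + MF * Mg) * Real.exp (-((3 / 2 : ℝ) ^ k / 2)) := by
    intro k
    have h1 : (1:ℂ) = F (zk k) * (1 - HK K (zk k)) + (1 - F (zk k) * (1 - HK K (zk k))) := by ring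
    calc (1:ℝ) = ‖(1:ℂ)‖ := norm_one.symm
      _ = ‖F (zk k) * (1 - HK K (zk k)) + (1 - F (zk k) * (1 - HK K (zk k)))‖ := by rw [← h1]
      _ ≤ _ := (norm_add_le _ _).trans (by linarith [hkey k])
  have := ge_of_tendsto' (hlim1.add hlim2) hfin
  norm_num at this

end Pool.Agent.Y503.GD
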